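import Mathlib

/-!
# `(-Δ)^m u = |x|^σ u^p` has no distributional solution on `ℝ` when `m` is odd

Let `u ≥ 0` be a distributional solution on the line, `m` odd, and let `η ≥ 0` be a test function.
The mollification `U = u ⋆ η` is smooth, `U ≥ 0`, and testing the equation with `η(t - ·)` gives
`U^{(2m)}(t) = - ∫ |x|^σ u^p η(t - x) dx ≤ 0`.  If `U^{(2m-1)}` were negative somewhere then it
would stay below a negative constant from there on, and by integration so would `U`; hence
`U^{(2m-1)} ≥ 0` everywhere.  The same argument applied to `U(-t)` gives `U^{(2m-1)} ≤ 0`.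
Hence `U^{(2m)} = 0`, and so `|x|^σ u^p = 0` almost everywhere, which forces `u = 0`.
-/

namespace Pool.Agent.Results.MP_643687_an.NoSolutionDimOne

open MeasureTheory Filter Topology Set InnerProductSpace Laplacian
open scoped ContDiff Convolution

/-- `u` is a distributional solution of `(-Δ)^m u = |x|^σ u^p` on the Euclidean space `E`
(non-negative, not identically zero, `u` and `|x|^σ u^p` locally integrable, and
`∫ u (-Δ)^m φ = ∫ |x|^σ u^p φ` for all test functions `φ ∈ C_c^∞(E)`). -/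
structure IsDistributionalSolution (E : Type) [NormedAddCommGroup E] [InnerProductSpace ℝ E]
    [FiniteDimensional ℝ E] [MeasurableSpace E] [BorelSpace E]
    (m : ℕ) (p σ : ℝ) (u : E → ℝ) : Prop where
  nonneg : ∀ᵐ x : E, 0 ≤ u x
  nontrivial : ¬ ∀ᵐ x : E, u x = 0
  locallyIntegrable : LocallyIntegrable u
  locallyIntegrable_rhs : LocallyIntegrable (fun x : E => ‖x‖ ^ σ * u x ^ p)
  eq : ∀ φ : E → ℝ, ContDiff ℝ ∞ φ → HasCompactSupport φ →
    ∫ x, u x * ((fun (ψ : E → ℝ) (y : E) => -(Δ ψ) y)^[m] φ) x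
      = ∫ x, ‖x‖ ^ σ * u x ^ p * φ x

/-! ### The iterated Laplacian on the line -/

lemma iterate_laplacian (m : ℕ) (φ : ℝ → ℝ) :
    ((fun (ψ : ℝ → ℝ) (y : ℝ) => -(Δ ψ) y)^[m] φ)
      = fun x => (-1) ^ m * iteratedDeriv (2 * m) φ x := by
  induction m with
  | zero => simp
  | succ k ih =>
    rw [Function.iterate_succ_apply', ih]
    funext x
    rw [laplacian_eq_iteratedDeriv_real]
    have h1 : iteratedDeriv 2 (fun x => (-1 : ℝ) ^ k * iteratedDeriv (2 * k) φ x)
        = fun x => (-1 : ℝ) ^ k * iteratedDeriv (2 * (k + 1)) φ x := by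
      have h2 : iteratedDeriv (2 * (k + 1)) φ = deriv (deriv (iteratedDeriv (2 * k) φ)) := by
        rw [show 2 * (k + 1) = 2 * k + 1 + 1 by ring, iteratedDeriv_succ, iteratedDeriv_succ]
      rw [h2, iteratedDeriv_succ, iteratedDeriv_one]
      funext y
      have h3 : deriv (fun x => (-1 : ℝ) ^ k * iteratedDeriv (2 * k) φ x)
          = fun x => (-1 : ℝ) ^ k * deriv (iteratedDeriv (2 * k) φ) x := by
        funext z
        exact deriv_const_mul_field _
      rw [h3]
      exact deriv_const_mul_field _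
    rw [h1]
    ring

/-! ### The mollified function -/

/-- the mollification -/
noncomputable def moll (u η : ℝ → ℝ) : ℝ → ℝ :=
  u ⋆[ContinuousLinearMap.mul ℝ ℝ, volume] η

lemma moll_apply (u η : ℝ → ℝ) (t : ℝ) : moll u η t = ∫ s, u s * η (t - s) := rfl

lemma hasDerivAt_moll {u η : ℝ → ℝ} (hu : LocallyIntegrable u) (hη : ContDiff ℝ ∞ η)
    (hc : HasCompactSupport η) (t : ℝ) : HasDerivAt (moll u η) (moll u (deriv η) t) t :=
  hc.hasDerivAt_convolution_right (ContinuousLinearMap.mul ℝ ℝ) hu (hη.of_le (by simp)) t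

lemma contDiff_iteratedDeriv {η : ℝ → ℝ} (hη : ContDiff ℝ ∞ η) (k : ℕ) :
    ContDiff ℝ ∞ (iteratedDeriv k η) := by
  induction k with
  | zero => simpa using hη
  | succ k ih =>
    rw [iteratedDeriv_succ]
    exact (contDiff_infty_iff_deriv.1 ih).2

lemma hasCompactSupport_iteratedDeriv {η : ℝ → ℝ} (hc : HasCompactSupport η) (k : ℕ) :
    HasCompactSupport (iteratedDeriv k η) := by
  induction k with
  | zero => simpa using hc
  | succ k ih =>
    rw [iteratedDeriv_succ]
    exact ih.deriv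

lemma iteratedDeriv_moll {u η : ℝ → ℝ} (hu : LocallyIntegrable u) (hη : ContDiff ℝ ∞ η)
    (hc : HasCompactSupport η) (k : ℕ) :
    iteratedDeriv k (moll u η) = moll u (iteratedDeriv k η) := by
  induction k with
  | zero => simp
  | succ k ih =>
    rw [iteratedDeriv_succ, ih, iteratedDeriv_succ]
    funext t
    exact (hasDerivAt_moll hu (contDiff_iteratedDeriv hη k)
      (hasCompactSupport_iteratedDeriv hc k) t).deriv

lemma contDiff_moll {u η : ℝ → ℝ} (hu : LocallyIntegrable u) (hη : ContDiff ℝ ∞ η)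
    (hc : HasCompactSupport η) : ContDiff ℝ ∞ (moll u η) :=
  hc.contDiff_convolution_right (ContinuousLinearMap.mul ℝ ℝ) hu hη

/-! ### One-variable calculus -/

/-- If the `n`-th derivative stays below a negative constant, so does the function. -/
lemma eventually_neg : ∀ (n : ℕ) (g : ℝ → ℝ), ContDiff ℝ ∞ g →
    (∃ c > 0, ∃ T, ∀ t ≥ T, iteratedDeriv n g t ≤ -c) → ∃ c > 0, ∃ T, ∀ t ≥ T, g t ≤ -c := by
  intro n
  induction n with
  | zero =>
    rintro g - ⟨c, hc, T, h⟩
    exact ⟨c, hc, T, by simpa using h⟩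
  | succ n ih =>
    rintro g hg ⟨c, hc, T, h⟩
    have hg' : Differentiable ℝ g ∧ ContDiff ℝ ∞ (deriv g) := contDiff_infty_iff_deriv.1 hg
    obtain ⟨c', hc', T', h'⟩ := ih (deriv g) hg'.2
      ⟨c, hc, T, by simpa only [iteratedDeriv_succ'] using h⟩
    refine ⟨1, one_pos, max T' (T' + (g T' + 1) / c'), fun t ht => ?_⟩
    have ht1 : T' ≤ t := (le_max_left _ _).trans ht
    have ht2 : T' + (g T' + 1) / c' ≤ t := (le_max_right _ _).trans ht
    have h1 : g t - g T' ≤ -c' * (t - T') := by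
      apply Convex.image_sub_le_mul_sub_of_deriv_le (convex_Ici T') hg'.1.continuous.continuousOn
        hg'.1.differentiableOn _ T' (self_mem_Ici) t ht1 ht1
      intro x hx
      exact h' x (interior_subset hx)
    have h2 : (g T' + 1) ≤ c' * (t - T') := by
      have h3 : (g T' + 1) / c' ≤ t - T' := by linarith
      rw [div_le_iff₀ hc'] at h3
      linarith
    linarith

/-- A non-negative smooth function whose derivative of order `n + 1` is non-positive has a
non-negative derivative of order `n`. -/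
lemma iteratedDeriv_nonneg (n : ℕ) (g : ℝ → ℝ) (hg : ContDiff ℝ ∞ g) (h0 : ∀ t, 0 ≤ g t)
    (h : ∀ t, iteratedDeriv (n + 1) g t ≤ 0) (t : ℝ) : 0 ≤ iteratedDeriv n g t := by
  by_contra hcon
  push Not at hcon
  have hd : Differentiable ℝ (iteratedDeriv n g) :=
    (contDiff_infty_iff_deriv.1 (contDiff_iteratedDeriv hg n)).1
  have hanti : Antitone (iteratedDeriv n g) := by
    apply antitone_of_deriv_nonpos hd
    intro x
    rw [← iteratedDeriv_succ]
    exact h x
  obtain ⟨c, hc, T, hT⟩ := eventually_neg n g hg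
    ⟨-iteratedDeriv n g t, by linarith, t, fun s hs => by rw [neg_neg]; exact hanti hs⟩
  have := hT T le_rfl
  have := h0 T
  linarith

/-- A non-negative smooth function on the line whose derivative of even order `2 k + 2` is
non-positive has a vanishing derivative of order `2 k + 2`. -/
lemma iteratedDeriv_eq_zero (k : ℕ) (g : ℝ → ℝ) (hg : ContDiff ℝ ∞ g) (h0 : ∀ t, 0 ≤ g t)
    (h : ∀ t, iteratedDeriv (2 * k + 2) g t ≤ 0) (t : ℝ) :
    iteratedDeriv (2 * k + 2) g t = 0 := by
  have h1 : ∀ t, 0 ≤ iteratedDeriv (2 * k + 1) g t :=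
    iteratedDeriv_nonneg (2 * k + 1) g hg h0 h
  have hneg : ContDiff ℝ ∞ (fun t => g (-t)) := hg.comp contDiff_neg
  have h2 : ∀ t, 0 ≤ iteratedDeriv (2 * k + 1) (fun t => g (-t)) t := by
    apply iteratedDeriv_nonneg (2 * k + 1) _ hneg (fun t => h0 (-t))
    intro t
    rw [iteratedDeriv_comp_neg]
    have : (-1 : ℝ) ^ (2 * k + 1 + 1) = 1 := by
      rw [show 2 * k + 1 + 1 = 2 * (k + 1) by ring, pow_mul]; simp
    rw [this, one_smul]
    exact h (-t)
  have h3 : ∀ t, iteratedDeriv (2 * k + 1) g t = 0 := by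
    intro t
    refine le_antisymm ?_ (h1 t)
    have h4 := h2 (-t)
    rw [iteratedDeriv_comp_neg, neg_neg] at h4
    have : (-1 : ℝ) ^ (2 * k + 1) = -1 := by
      rw [pow_succ, pow_mul]; simp
    rw [this, neg_one_smul] at h4
    linarith
  rw [show 2 * k + 2 = (2 * k + 1) + 1 by ring, iteratedDeriv_succ,
    show iteratedDeriv (2 * k + 1) g = fun _ => 0 from funext h3]
  simp

/-! ### Nonexistence -/

lemma test_eq {m : ℕ} {p σ : ℝ} {u : ℝ → ℝ} (hsol : IsDistributionalSolution ℝ m p σ u)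
    {η : ℝ → ℝ} (hη : ContDiff ℝ ∞ η) (hc : HasCompactSupport η) (t : ℝ) :
    (-1) ^ m * iteratedDeriv (2 * m) (moll u η) t
      = ∫ x, ‖x‖ ^ σ * u x ^ p * η (t - x) := by
  have hφ : ContDiff ℝ ∞ (fun x => η (t - x)) := hη.comp (contDiff_const.sub contDiff_id)
  have hφc : HasCompactSupport (fun x => η (t - x)) :=
    hc.comp_homeomorph (Homeomorph.subLeft t)
  rw [← hsol.eq _ hφ hφc, iterate_laplacian m, iteratedDeriv_moll hsol.locallyIntegrable hη hc,
    moll_apply, ← integral_const_mul]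
  congr 1
  funext x
  have : iteratedDeriv (2 * m) (fun x => η (t - x)) x
      = iteratedDeriv (2 * m) η (t - x) := by
    rw [iteratedDeriv_comp_const_sub]
    simp [pow_mul]
  beta_reduce
  rw [this]
  ring

lemma rhs_nonneg {m : ℕ} {p σ : ℝ} {u : ℝ → ℝ} (hsol : IsDistributionalSolution ℝ m p σ u)
    {η : ℝ → ℝ} (hη : ∀ x, 0 ≤ η x) (t : ℝ) :
    ∀ᵐ x : ℝ, 0 ≤ ‖x‖ ^ σ * u x ^ p * η (t - x) := by
  filter_upwards [hsol.nonneg] with x hx
  exact mul_nonneg (mul_nonneg (Real.rpow_nonneg (norm_nonneg _) _) (Real.rpow_nonneg hx _))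
    (hη _)

theorem integral_eq_zero {m : ℕ} (hm : Odd m) {p σ : ℝ} {u : ℝ → ℝ}
    (hsol : IsDistributionalSolution ℝ m p σ u)
    {η : ℝ → ℝ} (hη : ContDiff ℝ ∞ η) (hc : HasCompactSupport η) (h0 : ∀ x, 0 ≤ η x) (t : ℝ) :
    ∫ x, ‖x‖ ^ σ * u x ^ p * η (t - x) = 0 := by
  obtain ⟨k, rfl⟩ := hm
  have hU0 : ∀ t, 0 ≤ moll u η t := by
    intro t
    rw [moll_apply]
    apply integral_nonneg_of_ae
    filter_upwards [hsol.nonneg] with x hx
    exact mul_nonneg hx (h0 _)
  have hle : ∀ t, iteratedDeriv (2 * (2 * k) + 2) (moll u η) t ≤ 0 := by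
    intro t
    have h1 := test_eq hsol hη hc t
    have h2 : 0 ≤ ∫ x, ‖x‖ ^ σ * u x ^ p * η (t - x) :=
      integral_nonneg_of_ae (rhs_nonneg hsol h0 t)
    have h3 : (-1 : ℝ) ^ (2 * k + 1) = -1 := by rw [pow_succ, pow_mul]; simp
    rw [h3, show 2 * (2 * k + 1) = 2 * (2 * k) + 2 by ring] at h1
    linarith
  have h := iteratedDeriv_eq_zero (2 * k) (moll u η)
    (contDiff_moll hsol.locallyIntegrable hη hc) hU0 hle t
  rw [← test_eq hsol hη hc t, show 2 * (2 * k + 1) = 2 * (2 * k) + 2 by ring, h, mul_zero]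

theorem no_solution {m : ℕ} (hm : Odd m) {p σ : ℝ} (hp : 0 < p) (u : ℝ → ℝ) :
    ¬ IsDistributionalSolution ℝ m p σ u := by
  intro hsol
  apply hsol.nontrivial
  have key : ∀ R : ℕ, ∀ᵐ x : ℝ, x ∈ Metric.ball (0 : ℝ) ((R : ℝ) + 1) → u x = 0 := by
    intro R
    let η : ContDiffBump (0 : ℝ) := ⟨(R : ℝ) + 1, (R : ℝ) + 2, by positivity, by linarith⟩
    have h1 := integral_eq_zero hm hsol (η := fun x => η (-x))
      (η.contDiff.comp contDiff_neg) (η.hasCompactSupport.comp_homeomorph (Homeomorph.neg ℝ))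
      (fun x => η.nonneg) 0
    have hint : Integrable (fun x : ℝ => ‖x‖ ^ σ * u x ^ p * η x) := by
      have := hsol.locallyIntegrable_rhs.integrable_smul_left_of_hasCompactSupport
        (η.contDiff (n := 0)).continuous η.hasCompactSupport
      refine this.congr (Eventually.of_forall fun x => ?_)
      simp only [smul_eq_mul]
      ring
    have hnn : 0 ≤ᵐ[volume] (fun x : ℝ => ‖x‖ ^ σ * u x ^ p * η x) := by
      filter_upwards [hsol.nonneg] with x hx
      exact mul_nonneg (mul_nonneg (Real.rpow_nonneg (norm_nonneg _) _) (Real.rpow_nonneg hx _))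
        η.nonneg
    have h2 : ∫ x, ‖x‖ ^ σ * u x ^ p * η x = 0 := by
      simpa using h1
    have h3 := (integral_eq_zero_iff_of_nonneg_ae hnn hint).1 h2
    have h4 : ∀ᵐ x : ℝ, x ≠ 0 := by
      simp [ae_iff]
    filter_upwards [h3, h4, hsol.nonneg] with x hx hx0 hx1 hxR
    have h5 : η x = 1 := η.one_of_mem_closedBall (Metric.ball_subset_closedBall hxR)
    simp only [Pi.zero_apply, h5, mul_one, mul_eq_zero] at hx
    rcases hx with hx | hx
    · exact absurd hx (Real.rpow_pos_of_pos (norm_pos_iff.2 hx0) _).ne'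
    · exact ((Real.rpow_eq_zero hx1 hp.ne').1 hx)
  have hall := ae_all_iff.2 key
  filter_upwards [hall] with x hx
  obtain ⟨R, hR⟩ := exists_nat_gt ‖x‖
  exact hx R (by simp only [Metric.mem_ball, dist_zero_right]; linarith)

/-- **Negative answer to Q1.**  In dimension `n = 1`, for every odd `m`, every `p > 1` and every
real `σ` there is no distributional solution at all, whereas `σ < -2m` and `n - 2m - θ > 0`
(`θ = (2m+σ)/(p-1)`) hold for all `σ` below a threshold; e.g. for `m = 3`, `p = 2`, `σ = -12`. -/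
theorem result :
    -- no distributional solution on `ℝ` for odd `m`
    (∀ m : ℕ, Odd m → ∀ p : ℝ, 1 < p → ∀ σ : ℝ,
      ¬ ∃ u : ℝ → ℝ, IsDistributionalSolution ℝ m p σ u) ∧
    -- for all `m ≥ 2`, `p > 1` the hypotheses of the question (with `n = 1`) hold when `σ` is
    -- sufficiently negative
    (∀ m : ℕ, 2 ≤ m → ∀ p : ℝ, 1 < p → ∀ σ : ℝ, σ < -(2 * m) - (2 * m - 1) * (p - 1) →
      σ < -2 * m ∧ (1 : ℝ) - 2 * m - (2 * m + σ) / (p - 1) > 0) ∧
    -- hence the negated form of the question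
    (∃ (m : ℕ) (p σ : ℝ), 2 ≤ m ∧ 1 < p ∧ σ < -2 * m ∧
      (Module.finrank ℝ ℝ : ℝ) - 2 * m - (2 * m + σ) / (p - 1) > 0 ∧
      ¬ ∃ u : ℝ → ℝ, IsDistributionalSolution ℝ m p σ u) := by
  refine ⟨?_, ?_, ?_⟩
  · rintro m hm p hp σ ⟨u, hu⟩
    exact no_solution hm (by linarith) u hu
  · intro m hm p hp σ hσ
    have hm' : (2 : ℝ) ≤ m := by exact_mod_cast hm
    have hp' : 0 < p - 1 := by linarith
    constructor
    · nlinarith
    · have : (2 * m + σ) / (p - 1) < 1 - 2 * m := by
        rw [div_lt_iff₀ hp']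
        nlinarith
      linarith
  · refine ⟨3, 2, -12, by norm_num, by norm_num, by norm_num, by simp; norm_num, ?_⟩
    rintro ⟨u, hu⟩
    exact no_solution (by decide) (by norm_num) u hu

end Pool.Agent.Results.MP_643687_an.NoSolutionDimOne
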